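import Mathlib

/-!
# The orthonormal basis of the kernel, in the gauge of the heights

`V : ι × 3` with the sum of the rows `0` and `Vᵀ V` invertible, `card ι = k + 4`: there is `N : ι × k` with orthonormal
columns, orthogonal to the columns of `V` and to `1`, and `Nᵀ b = (η₁, 0, …, 0)`.
-/

set_option autoImplicit false

namespace Pool.Agent.Helper65.FULL

open Matrix

variable {ι : Type*} [Fintype ι] [DecidableEq ι]

/-- a vector of the Euclidean space -/
noncomputable def eu (r : ι → ℝ) : EuclideanSpace ℝ ι := WithLp.toLp 2 r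

theorem eu_inner (r s : ι → ℝ) : inner ℝ (eu r) (eu s) = r ⬝ᵥ s := by
  unfold eu
  rw [PiLp.inner_apply]
  simp only [dotProduct]
  exact Finset.sum_congr rfl fun i _ => by simp [mul_comm]

theorem eu_ofLp (x : EuclideanSpace ℝ ι) : eu x.ofLp = x := rfl

/-- the span of the columns of `V` and of `1` -/
noncomputable def spanV (V : Matrix ι (Fin 3) ℝ) : Submodule ℝ (EuclideanSpace ℝ ι) :=
  Submodule.span ℝ (Set.range fun j : Option (Fin 3) => eu (j.elim (fun _ => 1) fun c => fun w => V w c))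

theorem mem_spanV_one (V : Matrix ι (Fin 3) ℝ) : eu (fun _ => 1) ∈ spanV V :=
  Submodule.subset_span ⟨none, rfl⟩

theorem mem_spanV_col (V : Matrix ι (Fin 3) ℝ) (c : Fin 3) : eu (fun w => V w c) ∈ spanV V :=
  Submodule.subset_span ⟨some c, rfl⟩

theorem finrank_spanV (V : Matrix ι (Fin 3) ℝ) (Z : Matrix (Fin 3) (Fin 3) ℝ) (hZ : (Vᵀ * V) * Z = 1)
    (h1 : ∀ c, ∑ w, V w c = 0) (hne : Nonempty ι) : Module.finrank ℝ (spanV V) = 4 := by
  have hli : LinearIndependent ℝ fun j : Option (Fin 3) => eu (j.elim (fun _ => (1 : ℝ)) fun c => fun w => V w c) := by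
    rw [Fintype.linearIndependent_iff]
    intro g hg
    have h2 : ∀ w, g none + ∑ c, g (some c) * V w c = 0 := by
      intro w
      have h3 := congrArg (fun x : EuclideanSpace ℝ ι => x.ofLp w) hg
      simp only [Fintype.sum_option, PiLp.add_apply, PiLp.smul_apply, smul_eq_mul, PiLp.zero_apply, WithLp.ofLp_sum,
        Finset.sum_apply, eu, Option.elim] at h3
      simpa using h3
    have h4 : g none = 0 := by
      have h5 : ∑ w : ι, (g none + ∑ c, g (some c) * V w c) = 0 := Finset.sum_eq_zero fun w _ => h2 w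
      rw [Finset.sum_add_distrib, Finset.sum_comm] at h5
      simp only [← Finset.mul_sum, h1, mul_zero, Finset.sum_const_zero, add_zero, Finset.sum_const,
        Finset.card_univ, nsmul_eq_mul] at h5
      have h6 : (Fintype.card ι : ℝ) ≠ 0 := by
        have := Fintype.card_pos_iff.2 hne
        positivity
      exact (mul_eq_zero.1 h5).resolve_left h6
    have h5 : V *ᵥ (fun c => g (some c)) = 0 := by
      funext w
      have h6 := h2 w
      rw [h4, zero_add] at h6
      simp only [mulVec, dotProduct, Pi.zero_apply]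
      rw [← h6]
      exact Finset.sum_congr rfl fun c _ => mul_comm _ _
    have h6 : (fun c => g (some c)) = 0 := by
      have h7 : Z * (Vᵀ * V) = 1 := mul_eq_one_comm.1 hZ
      have h8 : (Z * (Vᵀ * V)) *ᵥ (fun c => g (some c)) = 0 := by
        rw [← Matrix.mulVec_mulVec, ← Matrix.mulVec_mulVec, h5, mulVec_zero, mulVec_zero]
      rwa [h7, one_mulVec] at h8
    intro j
    cases j with
    | none => exact h4
    | some c => exact congrFun h6 c
  have h := finrank_span_eq_card hli
  unfold spanV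
  rw [h]
  simp

/-- **The kernel basis.** -/
theorem exists_kernel (V : Matrix ι (Fin 3) ℝ) (Z : Matrix (Fin 3) (Fin 3) ℝ) (hZ : (Vᵀ * V) * Z = 1)
    (h1 : ∀ c, ∑ w, V w c = 0) (b : ι → ℝ) {k : ℕ} (hk : Fintype.card ι = k + 4) :
    ∃ (N : Matrix ι (Fin k) ℝ) (η : ℝ), Nᵀ * N = 1 ∧ Vᵀ * N = 0 ∧ (∀ j, ∑ w, N w j = 0) ∧ 0 ≤ η ∧
      (∀ j, ∑ w, N w j * b w = if (j : ℕ) = 0 then η else 0) ∧
      ∀ r : ι → ℝ, (∀ c, ∑ w, V w c * r w = 0) → ∑ w, r w = 0 → ∀ w, r w = ∑ j, N w j * ∑ w', N w' j * r w' := by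
  classical
  have hne : Nonempty ι := Fintype.card_pos_iff.1 (by omega)
  set S := spanV V with hS
  have hfr : Module.finrank ℝ S = 4 := finrank_spanV V Z hZ h1 hne
  have hfo : Module.finrank ℝ Sᗮ = Fintype.card (Fin k) := by
    have h2 := Submodule.finrank_add_finrank_orthogonal S
    rw [hfr, finrank_euclideanSpace, hk] at h2
    rw [Fintype.card_fin]
    omega
  obtain ⟨β, hβ⟩ : ∃ β : Sᗮ, ∀ x : Sᗮ, inner ℝ x β = inner ℝ (x : EuclideanSpace ℝ ι) (eu b) :=
    ⟨Sᗮ.orthogonalProjectionOnto (eu b), fun x => Submodule.inner_orthogonalProjectionOnto_eq_of_mem_left x (eu b)⟩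
  obtain ⟨B, hB⟩ : ∃ B : OrthonormalBasis (Fin k) ℝ Sᗮ, ∀ j : Fin k, inner ℝ (B j) β = if (j : ℕ) = 0 then ‖β‖ else 0 := by
    rcases Nat.eq_zero_or_pos k with hk0 | hk0
    · refine ⟨(stdOrthonormalBasis ℝ Sᗮ).reindex (finCongr (by rw [hfo, Fintype.card_fin])), fun j => ?_⟩
      exact absurd j.2 (by omega)
    · by_cases hb0 : β = 0
      · refine ⟨(stdOrthonormalBasis ℝ Sᗮ).reindex (finCongr (by rw [hfo, Fintype.card_fin])), fun j => ?_⟩
        rw [hb0, inner_zero_right, norm_zero, ite_self]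
      · have hn : ‖β‖ ≠ 0 := norm_ne_zero_iff.2 hb0
        have hv : Orthonormal ℝ (({(⟨0, hk0⟩ : Fin k)} : Set (Fin k)).domRestrict fun _ => (‖β‖)⁻¹ • β) := by
          refine ⟨fun i => ?_, fun i j hij => ?_⟩
          · show ‖(‖β‖)⁻¹ • β‖ = 1
            rw [norm_smul, norm_inv, norm_norm, inv_mul_cancel₀ hn]
          · exact absurd (Subsingleton.elim i j) hij
        obtain ⟨B, hB⟩ := hv.exists_orthonormalBasis_extension_of_card_eq hfo
        refine ⟨B, fun j => ?_⟩
        have h0 := hB ⟨0, hk0⟩ rfl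
        have hβ0 : β = ‖β‖ • B ⟨0, hk0⟩ := by
          rw [h0, smul_smul, mul_inv_cancel₀ hn, one_smul]
        have h2 : inner ℝ (B j) β = ‖β‖ * inner ℝ (B j) (B ⟨0, hk0⟩) := by
          conv_lhs => rw [hβ0]
          rw [real_inner_smul_right]
        rw [h2, orthonormal_iff_ite.1 B.orthonormal]
        by_cases hj : (j : ℕ) = 0
        · rw [if_pos hj, if_pos (Fin.ext hj), mul_one]
        · rw [if_neg hj, if_neg (fun h => hj (congrArg Fin.val h)), mul_zero]
  have hBm : ∀ j, ((B j : Sᗮ) : EuclideanSpace ℝ ι) ∈ Sᗮ := fun j => (B j).2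
  have hin : ∀ (j : Fin k) (r : ι → ℝ), inner ℝ ((B j : Sᗮ) : EuclideanSpace ℝ ι) (eu r) =
      ∑ w, ((B j : Sᗮ) : EuclideanSpace ℝ ι).ofLp w * r w := by
    intro j r
    rw [← eu_ofLp ((B j : Sᗮ) : EuclideanSpace ℝ ι), eu_inner]
    rfl
  refine ⟨fun w j => ((B j : Sᗮ) : EuclideanSpace ℝ ι).ofLp w, ‖β‖, ?_, ?_, ?_, norm_nonneg _, ?_, ?_⟩
  · ext i j
    rw [Matrix.mul_apply, Matrix.one_apply]
    have h2 := orthonormal_iff_ite.1 B.orthonormal i j
    rw [Submodule.coe_inner, ← eu_ofLp ((B j : Sᗮ) : EuclideanSpace ℝ ι), hin] at h2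
    exact h2
  · ext c j
    rw [Matrix.mul_apply, Matrix.zero_apply]
    have h2 := Submodule.inner_right_of_mem_orthogonal (mem_spanV_col V c) (hBm j)
    rw [real_inner_comm, hin] at h2
    rw [← h2]
    exact Finset.sum_congr rfl fun w _ => mul_comm _ _
  · intro j
    have h2 := Submodule.inner_right_of_mem_orthogonal (mem_spanV_one V) (hBm j)
    rw [real_inner_comm, hin] at h2
    rw [← h2]
    exact Finset.sum_congr rfl fun w _ => (mul_one _).symm
  · intro j
    rw [← hB j, hβ, hin]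
  · intro r hr hr1 w
    have hrm : eu r ∈ Sᗮ := by
      rw [hS, spanV, Submodule.mem_orthogonal]
      intro u hu
      induction hu using Submodule.span_induction with
      | mem x hx =>
        obtain ⟨j, rfl⟩ := hx
        cases j with
        | none =>
          simp only [Option.elim]
          rw [eu_inner]
          simp only [dotProduct, one_mul]
          exact hr1
        | some c =>
          simp only [Option.elim]
          rw [eu_inner]
          exact hr c
      | zero => exact inner_zero_left _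
      | add x y _ _ h3 h4 => rw [inner_add_left, h3, h4, add_zero]
      | smul a x _ h3 => rw [inner_smul_left, h3, mul_zero]
    have h2 := B.sum_repr' ⟨eu r, hrm⟩
    have h3 := congrArg (fun x : Sᗮ => (x : EuclideanSpace ℝ ι).ofLp w) h2
    simp only [Submodule.coe_sum, Submodule.coe_smul, WithLp.ofLp_sum, Finset.sum_apply, PiLp.smul_apply,
      smul_eq_mul] at h3
    rw [show (eu r).ofLp w = r w from rfl] at h3
    rw [← h3]
    refine Finset.sum_congr rfl fun j _ => ?_
    rw [Submodule.coe_inner, hin, mul_comm]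

end Pool.Agent.Helper65.FULL
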