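import Pool.Agent.Helper65.FULL.What

/-!
# From rows that separate the points to the state with the kernel basis
-/

set_option autoImplicit false

namespace Pool.Agent.Helper65.FULL

open Matrix

variable {ι : Type*} [Fintype ι] [DecidableEq ι]

theorem exists_Z (V : Matrix ι (Fin 3) ℝ) (hsep : ∀ x : Fin 3 → ℝ, (∀ w, V w ⬝ᵥ x = 0) → x = 0) :
    ∃ Z : Matrix (Fin 3) (Fin 3) ℝ, (Vᵀ * V) * Z = 1 ∧ Zᵀ = Z := by
  have hinj : Function.Injective (Vᵀ * V).mulVec := by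
    intro x y hxy
    rw [← sub_eq_zero]
    apply hsep
    have h1 : (Vᵀ * V) *ᵥ (x - y) = 0 := by rw [mulVec_sub, hxy, sub_self]
    have h2 : (V *ᵥ (x - y)) ⬝ᵥ (V *ᵥ (x - y)) = 0 := by
      have h3 : (x - y) ⬝ᵥ ((Vᵀ * V) *ᵥ (x - y)) = 0 := by rw [h1, dotProduct_zero]
      rw [← Matrix.mulVec_mulVec, dotProduct_mulVec, Matrix.vecMul_transpose] at h3
      exact h3
    have h3 := dotProduct_self_eq_zero.1 h2
    exact fun w => congrFun h3 w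
  have hu : IsUnit (Vᵀ * V) := Matrix.mulVec_injective_iff_isUnit.1 hinj
  have hdet := (Matrix.isUnit_iff_isUnit_det _).1 hu
  refine ⟨(Vᵀ * V)⁻¹, Matrix.mul_nonsing_inv _ hdet, ?_⟩
  rw [Matrix.transpose_nonsing_inv, Matrix.transpose_mul, Matrix.transpose_transpose]

/-- the scaled state: rows `v w`, heights `h w` with a positive sum -/
theorem exists_what_of {k : ℕ} (hk : Fintype.card ι = k + 4) {K : Set (Fin 3 → ℝ)} {T : Finset ι}
    {V : Matrix ι (Fin 3) ℝ} {b : ι → ℝ} (hsub : ∀ x ∈ K, ∀ w, V w ⬝ᵥ x ≤ b w)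
    (hV : ∑ w, V w = 0) (hb : ∑ w, b w = 1) (h0 : ∀ w, w ∉ T → V w = 0 ∧ b w = 0)
    (hsep : ∀ x : Fin 3 → ℝ, (∀ w, V w ⬝ᵥ x = 0) → x = 0) :
    ∃ (Z : Matrix (Fin 3) (Fin 3) ℝ) (N : Matrix ι (Fin k) ℝ) (η : ℝ), Zᵀ = Z ∧ WHat K T V b Z N η := by
  obtain ⟨Z, hZ, hZt⟩ := exists_Z V hsep
  obtain ⟨N, η, h⟩ := exists_what hk hsub hZ (fun c => by
    have h1 := congrFun hV c
    rwa [Finset.sum_apply] at h1) hb h0
  exact ⟨Z, N, η, hZt, h⟩

/-- normalisation: the sum of the heights is positive, divide by it -/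
theorem exists_what_scale {k : ℕ} (hk : Fintype.card ι = k + 4) {K : Set (Fin 3 → ℝ)} {T : Finset ι}
    {V : Matrix ι (Fin 3) ℝ} {b : ι → ℝ} (hsub : ∀ x ∈ K, ∀ w, V w ⬝ᵥ x ≤ b w)
    (hV : ∑ w, V w = 0) (hb : 0 < ∑ w, b w) (h0 : ∀ w, w ∉ T → V w = 0 ∧ b w = 0)
    (hsep : ∀ x : Fin 3 → ℝ, (∀ w, V w ⬝ᵥ x = 0) → x = 0) :
    ∃ (r : ℝ) (Z : Matrix (Fin 3) (Fin 3) ℝ) (N : Matrix ι (Fin k) ℝ) (η : ℝ), 0 < r ∧ r * ∑ w, b w = 1 ∧ Zᵀ = Z ∧
      WHat K T (fun w => r • V w) (fun w => r * b w) Z N η := by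
  have hr : 0 < (∑ w, b w)⁻¹ := inv_pos.2 hb
  obtain ⟨Z, N, η, h1, h2⟩ := exists_what_of (k := k) hk (K := K) (T := T) (V := fun w => (∑ w, b w)⁻¹ • V w)
    (b := fun w => (∑ w, b w)⁻¹ * b w)
    (fun x hx w => by
      show ((∑ w, b w)⁻¹ • V w) ⬝ᵥ x ≤ _
      rw [smul_dotProduct, smul_eq_mul]
      exact mul_le_mul_of_nonneg_left (hsub x hx w) hr.le)
    (by
      show ∑ w, (∑ w, b w)⁻¹ • V w = 0
      rw [← Finset.smul_sum, hV, smul_zero])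
    (by rw [← Finset.mul_sum, inv_mul_cancel₀ hb.ne'])
    (fun w hw => by
      obtain ⟨h3, h4⟩ := h0 w hw
      constructor
      · show (∑ w, b w)⁻¹ • V w = 0
        rw [h3, smul_zero]
      · rw [h4, mul_zero])
    (fun x hx => hsep x fun w => by
      have h3 : ((∑ w, b w)⁻¹ • V w) ⬝ᵥ x = 0 := hx w
      rw [smul_dotProduct, smul_eq_mul] at h3
      exact (mul_eq_zero.1 h3).resolve_left hr.ne')
  exact ⟨_, Z, N, η, hr, inv_mul_cancel₀ hb.ne', h1, h2⟩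

/-- the sum of the heights is positive, if `K` has an interior point and some row is not zero -/
theorem sum_pos_of_interior {K : Set (Fin 3 → ℝ)} {V : Matrix ι (Fin 3) ℝ} {b : ι → ℝ}
    (hsub : ∀ x ∈ K, ∀ w, V w ⬝ᵥ x ≤ b w) (hV : ∑ w, V w = 0) (hint : (interior K).Nonempty)
    (hne : ∃ w, V w ≠ 0) : 0 < ∑ w, b w := by
  obtain ⟨p, hp⟩ := hint
  obtain ⟨w0, hw0⟩ := hne
  have h1 : ∑ w, V w ⬝ᵥ p = 0 := by rw [← sum_dotProduct, hV, zero_dotProduct]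
  rw [← h1]
  refine Finset.sum_lt_sum (fun w _ => hsub p (interior_subset hp) w) ⟨w0, Finset.mem_univ _, ?_⟩
  -- the row `w0` is strict at an interior point
  obtain ⟨ε, hε, hball⟩ := Metric.isOpen_iff.1 isOpen_interior p hp
  have hd : 0 < V w0 ⬝ᵥ V w0 := lt_of_le_of_ne (dotProduct_self_nonneg' _) fun h => hw0 (dotProduct_self_eq_zero.1 h.symm)
  have hn : 0 < ‖V w0‖ := norm_pos_iff.2 hw0
  have hmem : p + (ε / (2 * ‖V w0‖)) • V w0 ∈ K := by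
    apply interior_subset
    apply hball
    rw [Metric.mem_ball, dist_eq_norm, add_sub_cancel_left, norm_smul, Real.norm_of_nonneg (by positivity)]
    rw [div_mul_eq_mul_div, mul_comm, div_lt_iff₀ (by positivity)]
    nlinarith
  have h2 := hsub _ hmem w0
  rw [dotProduct_add, dotProduct_smul, smul_eq_mul] at h2
  have h3 : 0 < ε / (2 * ‖V w0‖) * (V w0 ⬝ᵥ V w0) := by positivity
  linarith
where
  dotProduct_self_nonneg' (v : Fin 3 → ℝ) : 0 ≤ v ⬝ᵥ v := Finset.sum_nonneg fun i _ => mul_self_nonneg (v i)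

end Pool.Agent.Helper65.FULL
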