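import Pool.Agent.Helper65.FULL.Ker

/-!
# The state with the kernel basis: width rows

`K` lies in `v w · x ≤ b w`, the sum of the rows is `0`, the sum of the heights is `1`, `N` is an orthonormal basis of the
relations of the rows orthogonal to `1`, `Nᵀ b = (η, 0, …, 0)`.  The rows outside `T` are zero rows with height zero.
-/

set_option autoImplicit false

namespace Pool.Agent.Helper65.FULL

open Matrix

variable {ι : Type*} [Fintype ι] [DecidableEq ι]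

/-- the vector `(η, 0, …, 0)` -/
def ev {k : ℕ} (η : ℝ) (j : Fin k) : ℝ := if (j : ℕ) = 0 then η else 0

/-- the state with the kernel basis -/
structure WHat {k : ℕ} (K : Set (Fin 3 → ℝ)) (T : Finset ι) (V : Matrix ι (Fin 3) ℝ) (b : ι → ℝ)
    (Z : Matrix (Fin 3) (Fin 3) ℝ) (N : Matrix ι (Fin k) ℝ) (η : ℝ) : Prop where
  sub : ∀ x ∈ K, ∀ w, V w ⬝ᵥ x ≤ b w
  inv : (Vᵀ * V) * Z = 1
  sumV : ∀ c, ∑ w, V w c = 0
  sumb : ∑ w, b w = 1
  zero : ∀ w, w ∉ T → V w = 0 ∧ b w = 0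
  NN : Nᵀ * N = 1
  VN : Vᵀ * N = 0
  sumN : ∀ j, ∑ w, N w j = 0
  eta_nonneg : 0 ≤ η
  eta : ∀ j, ∑ w, N w j * b w = ev η j
  full : ∀ r : ι → ℝ, (∀ c, ∑ w, V w c * r w = 0) → ∑ w, r w = 0 → ∀ w, r w = ∑ j, N w j * ∑ w', N w' j * r w'

/-- **Existence of the kernel basis.** -/
theorem exists_what {k : ℕ} (hk : Fintype.card ι = k + 4) {K : Set (Fin 3 → ℝ)} {T : Finset ι}
    {V : Matrix ι (Fin 3) ℝ} {b : ι → ℝ} {Z : Matrix (Fin 3) (Fin 3) ℝ} (hsub : ∀ x ∈ K, ∀ w, V w ⬝ᵥ x ≤ b w)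
    (hinv : (Vᵀ * V) * Z = 1) (hV : ∀ c, ∑ w, V w c = 0) (hb : ∑ w, b w = 1)
    (h0 : ∀ w, w ∉ T → V w = 0 ∧ b w = 0) :
    ∃ (N : Matrix ι (Fin k) ℝ) (η : ℝ), WHat K T V b Z N η := by
  obtain ⟨N, η, h1, h2, h3, h4, h5, h6⟩ := exists_kernel V Z hinv hV b hk
  exact ⟨N, η, hsub, hinv, hV, hb, h0, h1, h2, h3, h4, h5, h6⟩

section

variable {k : ℕ} {K : Set (Fin 3 → ℝ)} {T : Finset ι} {V : Matrix ι (Fin 3) ℝ} {b : ι → ℝ}
  {Z : Matrix (Fin 3) (Fin 3) ℝ} {N : Matrix ι (Fin k) ℝ} {η : ℝ}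

/-- the part of the kernel -/
def na (N : Matrix ι (Fin k) ℝ) (a : Fin k → ℝ) (w : ι) : ℝ := ∑ j, N w j * a j

/-- the row of the form `u` -/
def yr (V : Matrix ι (Fin 3) ℝ) (Z : Matrix (Fin 3) (Fin 3) ℝ) (u : Fin 3 → ℝ) (w : ι) : ℝ := V w ⬝ᵥ (Z *ᵥ u)

theorem WHat.T_nonempty (h : WHat K T V b Z N η) : T.Nonempty := by
  by_contra hT
  rw [Finset.not_nonempty_iff_eq_empty] at hT
  have h1 : ∑ w, b w = 0 := Finset.sum_eq_zero fun w _ => (h.zero w (by rw [hT]; exact Finset.notMem_empty w)).2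
  rw [h.sumb] at h1
  exact one_ne_zero h1

theorem sum_yr (hinv : (Vᵀ * V) * Z = 1) (u x : Fin 3 → ℝ) : ∑ w, yr V Z u w * (V w ⬝ᵥ x) = u ⬝ᵥ x := by
  have h2 : ∑ w, yr V Z u w * (V w ⬝ᵥ x) = (V *ᵥ (Z *ᵥ u)) ⬝ᵥ (V *ᵥ x) := rfl
  have h3 : (Z *ᵥ u) ᵥ* (Vᵀ * V) = u := by
    rw [← Matrix.mulVec_transpose, Matrix.transpose_mul, Matrix.transpose_transpose, Matrix.mulVec_mulVec, hinv,
      one_mulVec]
  rw [h2, dotProduct_mulVec, vecMul_mulVec, h3]

theorem sum_na_V (hVN : Vᵀ * N = 0) (a : Fin k → ℝ) (x : Fin 3 → ℝ) : ∑ w, na N a w * (V w ⬝ᵥ x) = 0 := by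
  have h1 : ∀ c j, ∑ w, V w c * N w j = 0 := fun c j => by
    have h2 := congrFun (congrFun hVN c) j
    rwa [Matrix.mul_apply] at h2
  have h2 : ∀ w, na N a w * (V w ⬝ᵥ x) = ∑ j, ∑ c, a j * x c * (V w c * N w j) := by
    intro w
    unfold na dotProduct
    rw [Finset.sum_mul_sum]
    exact Finset.sum_congr rfl fun j _ => Finset.sum_congr rfl fun c _ => by ring
  simp only [h2]
  rw [Finset.sum_comm]
  refine Finset.sum_eq_zero fun j _ => ?_
  rw [Finset.sum_comm]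
  refine Finset.sum_eq_zero fun c _ => ?_
  rw [← Finset.mul_sum, h1, mul_zero]

theorem WHat.sum_na_b (h : WHat K T V b Z N η) (a : Fin k → ℝ) : ∑ w, na N a w * b w = ∑ j, a j * ev η j := by
  unfold na
  simp only [Finset.sum_mul]
  rw [Finset.sum_comm]
  refine Finset.sum_congr rfl fun j _ => ?_
  rw [← h.eta j, Finset.mul_sum]
  exact Finset.sum_congr rfl fun w _ => by ring

/-- the support function of `K` in the direction `∑ c w v w` -/
theorem WHat.support (h : WHat K T V b Z N η) {x : Fin 3 → ℝ} (hx : x ∈ K) (c : ι → ℝ) {t : ℝ}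
    (ht : ∀ w ∈ T, 0 ≤ c w + t) : ∑ w, c w * (V w ⬝ᵥ x) ≤ ∑ w, c w * b w + t := by
  have h1 : ∑ w, (c w + t) * (V w ⬝ᵥ x) ≤ ∑ w, (c w + t) * b w := by
    refine Finset.sum_le_sum fun w _ => ?_
    by_cases hw : w ∈ T
    · exact mul_le_mul_of_nonneg_left (h.sub x hx w) (ht w hw)
    · obtain ⟨h2, h3⟩ := h.zero w hw
      rw [h2, h3, zero_dotProduct]
  simp only [add_mul, Finset.sum_add_distrib, ← Finset.mul_sum, h.sumb, mul_one] at h1
  have h2 : ∑ w, V w ⬝ᵥ x = 0 := by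
    rw [← sum_dotProduct]
    have h3 : ∑ w, V w = 0 := by
      funext c
      rw [Finset.sum_apply]
      exact h.sumV c
    rw [h3, zero_dotProduct]
  rw [h2, mul_zero, add_zero] at h1
  exact h1

/-- **The width row**, with the order of the other entries. -/
theorem WHat.width (h : WHat K T V b Z N η) {W : ℝ} {u x x' : Fin 3 → ℝ} (hx : x ∈ K) (hx' : x' ∈ K)
    (hW : W < u ⬝ᵥ x - u ⬝ᵥ x') {s : ℝ} (hs : 0 < s) (a a' : Fin k → ℝ) :
    ∃ i ∈ T, ∃ j ∈ T,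
      (∀ l ∈ T, s * yr V Z u l - na N a' l ≤ s * yr V Z u i - na N a' i) ∧
      (∀ l ∈ T, s * yr V Z u j + na N a j ≤ s * yr V Z u l + na N a l) ∧
      s * W < (s * yr V Z u i - na N a' i) - (s * yr V Z u j + na N a j) + ∑ c, (a c + a' c) * ev η c := by
  obtain ⟨i, hi, hi'⟩ := Finset.exists_max_image T (fun l => s * yr V Z u l - na N a' l) h.T_nonempty
  obtain ⟨j, hj, hj'⟩ := Finset.exists_min_image T (fun l => s * yr V Z u l + na N a l) h.T_nonempty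
  refine ⟨i, hi, j, hj, hi', hj', ?_⟩
  have h1 := h.support hx (fun w => s * yr V Z u w + na N a w) (t := -(s * yr V Z u j + na N a j)) fun w hw => by
    have := hj' w hw
    linarith
  have h2 := h.support hx' (fun w => -(s * yr V Z u w - na N a' w)) (t := s * yr V Z u i - na N a' i) fun w hw => by
    have := hi' w hw
    linarith
  simp only [add_mul, neg_mul, sub_mul, Finset.sum_add_distrib, Finset.sum_neg_distrib, Finset.sum_sub_distrib,
    mul_assoc, ← Finset.mul_sum] at h1 h2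
  rw [sum_yr h.inv, sum_na_V h.VN, h.sum_na_b] at h1 h2
  have h3 : ∑ c, (a c + a' c) * ev η c = ∑ c, a c * ev η c + ∑ c, a' c * ev η c := by
    rw [← Finset.sum_add_distrib]
    exact Finset.sum_congr rfl fun c _ => by ring
  rw [h3]
  have h4 : s * W < s * (u ⬝ᵥ x - u ⬝ᵥ x') := mul_lt_mul_of_pos_left hW hs
  linarith

/-- `η` lies in the convex hull of the rows of `N` -/
theorem WHat.conv (h : WHat K T V b Z N η) {x : Fin 3 → ℝ} (hx : x ∈ K) :
    ∃ m : ι → ℝ, (∀ w, 0 ≤ m w) ∧ (∀ w, w ∉ T → m w = 0) ∧ ∑ w, m w = 1 ∧ ∀ j, ∑ w, N w j * m w = ev η j := by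
  have h2 : ∑ w, V w ⬝ᵥ x = 0 := by
    rw [← sum_dotProduct]
    have h3 : ∑ w, V w = 0 := by
      funext c
      rw [Finset.sum_apply]
      exact h.sumV c
    rw [h3, zero_dotProduct]
  refine ⟨fun w => b w - V w ⬝ᵥ x, fun w => sub_nonneg.2 (h.sub x hx w), fun w hw => ?_, ?_, fun j => ?_⟩
  · obtain ⟨h3, h4⟩ := h.zero w hw
    show b w - V w ⬝ᵥ x = 0
    rw [h3, h4, zero_dotProduct, sub_zero]
  · rw [Finset.sum_sub_distrib, h.sumb, h2, sub_zero]
  · have h3 := sum_na_V h.VN (Pi.single j 1) x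
    have h4 : ∀ w, na N (Pi.single j 1) w = N w j := fun w => by
      unfold na
      rw [Finset.sum_eq_single j]
      · rw [Pi.single_eq_same, mul_one]
      · intro l _ hl
        rw [Pi.single_eq_of_ne hl, mul_zero]
      · intro hj
        exact absurd (Finset.mem_univ j) hj
    simp only [h4] at h3
    simp only [mul_sub]
    rw [Finset.sum_sub_distrib, h3, sub_zero, h.eta]

/-- the two children of the row `a` -/
theorem WHat.conv_row (h : WHat K T V b Z N η) (hK : K.Nonempty) (a : Fin k → ℝ) :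
    (∃ i ∈ T, ∑ c, a c * ev η c ≤ na N a i) ∧ ∃ j ∈ T, na N a j ≤ ∑ c, a c * ev η c := by
  obtain ⟨x, hx⟩ := hK
  obtain ⟨m, h1, h2, h3, h4⟩ := h.conv hx
  have h5 : ∑ w, na N a w * m w = ∑ c, a c * ev η c := by
    unfold na
    simp only [Finset.sum_mul]
    rw [Finset.sum_comm]
    refine Finset.sum_congr rfl fun j _ => ?_
    rw [← h4 j, Finset.mul_sum]
    exact Finset.sum_congr rfl fun w _ => by ring
  have h6 : ∑ w ∈ T, m w = 1 := by
    rw [← h3]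
    exact Finset.sum_subset (Finset.subset_univ T) fun w _ hw => h2 w hw
  have h7 : ∑ w ∈ T, na N a w * m w = ∑ c, a c * ev η c := by
    rw [← h5]
    exact Finset.sum_subset (Finset.subset_univ T) fun w _ hw => by rw [h2 w hw, mul_zero]
  constructor
  · obtain ⟨i, hi, hi'⟩ := Finset.exists_max_image T (fun l => na N a l) h.T_nonempty
    refine ⟨i, hi, ?_⟩
    rw [← h7]
    calc ∑ w ∈ T, na N a w * m w ≤ ∑ w ∈ T, na N a i * m w :=
          Finset.sum_le_sum fun w hw => mul_le_mul_of_nonneg_right (hi' w hw) (h1 w)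
      _ = na N a i := by rw [← Finset.mul_sum, h6, mul_one]
  · obtain ⟨j, hj, hj'⟩ := Finset.exists_min_image T (fun l => na N a l) h.T_nonempty
    refine ⟨j, hj, ?_⟩
    rw [← h7]
    calc na N a j = ∑ w ∈ T, na N a j * m w := by rw [← Finset.mul_sum, h6, mul_one]
      _ ≤ ∑ w ∈ T, na N a w * m w :=
          Finset.sum_le_sum fun w hw => mul_le_mul_of_nonneg_right (hj' w hw) (h1 w)

/-- the label facts -/
theorem WHat.label_sum (h : WHat K T V b Z N η) (z : ι → Fin 3 → ℝ) (hz : ∀ w ∈ T, b w ≤ V w ⬝ᵥ z w) :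
    1 ≤ ∑ w, V w ⬝ᵥ z w := by
  rw [← h.sumb]
  refine Finset.sum_le_sum fun w _ => ?_
  by_cases hw : w ∈ T
  · exact hz w hw
  · obtain ⟨h2, h3⟩ := h.zero w hw
    rw [h2, h3, zero_dotProduct]

end

end Pool.Agent.Helper65.FULL
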